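import Pool.Agent.H67.AT.Targets
import Pool.Agent.H67.AT.Ser

set_option autoImplicit false

open Finset PowerSeries Pool.Agent.H67.AT

namespace Pool.Agent.H68.AT

theorem exc_double {ι : Type} [DecidableEq ι] (O : Finset ι) (c : ι → ℝ) (q : ℕ) :
    ((q : ℝ) + 1) * ∑ T ∈ powersetCard (q + 1) O, ∏ i ∈ T, c i =
      ∑ T ∈ powersetCard q O, (∏ i ∈ T, c i) * ∑ i ∈ O \ T, c i := by
  have h1 : ((q : ℝ) + 1) * ∑ T ∈ powersetCard (q + 1) O, ∏ i ∈ T, c i =
      ∑ T ∈ powersetCard (q + 1) O, ∑ _i ∈ T, ∏ j ∈ T, c j := by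
    rw [Finset.mul_sum]
    refine Finset.sum_congr rfl fun T hT => ?_
    rw [Finset.sum_const, (Finset.mem_powersetCard.1 hT).2, nsmul_eq_mul]
    push_cast
    ring
  have h2 : ∑ T ∈ powersetCard q O, (∏ i ∈ T, c i) * ∑ i ∈ O \ T, c i =
      ∑ T ∈ powersetCard q O, ∑ i ∈ O \ T, (∏ j ∈ T, c j) * c i := by
    refine Finset.sum_congr rfl fun T _ => ?_
    rw [Finset.mul_sum]
  rw [h1, h2, Finset.sum_sigma', Finset.sum_sigma']
  refine Finset.sum_bij' (fun x _ => (⟨x.1.erase x.2, x.2⟩ : (_ : Finset ι) × ι))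
    (fun x _ => (⟨insert x.2 x.1, x.2⟩ : (_ : Finset ι) × ι)) ?_ ?_ ?_ ?_ ?_
  · rintro ⟨T, i⟩ h
    simp only [Finset.mem_sigma, Finset.mem_powersetCard, Finset.mem_sdiff] at h ⊢
    obtain ⟨⟨hT, hc⟩, hi⟩ := h
    refine ⟨⟨(Finset.erase_subset _ _).trans hT, ?_⟩, hT hi, Finset.notMem_erase _ _⟩
    rw [Finset.card_erase_of_mem hi, hc]
    rfl
  · rintro ⟨T, i⟩ h
    simp only [Finset.mem_sigma, Finset.mem_powersetCard, Finset.mem_sdiff] at h ⊢
    obtain ⟨⟨hT, hc⟩, hi, hiT⟩ := h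
    refine ⟨⟨Finset.insert_subset hi hT, ?_⟩, Finset.mem_insert_self _ _⟩
    rw [Finset.card_insert_of_notMem hiT, hc]
  · rintro ⟨T, i⟩ h
    simp only [Finset.mem_sigma, Finset.mem_powersetCard] at h
    simp only [Finset.insert_erase h.2]
  · rintro ⟨T, i⟩ h
    simp only [Finset.mem_sigma, Finset.mem_powersetCard, Finset.mem_sdiff] at h
    simp only [Finset.erase_insert h.2.2]
  · rintro ⟨T, i⟩ h
    simp only [Finset.mem_sigma, Finset.mem_powersetCard] at h
    simp only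
    exact (Finset.prod_erase_mul T c h.2).symm

theorem pf_EXC : T_EXC := by
  intro ι _ O c m ζ hc hm hζ hlt
  by_contra hcon
  push Not at hcon
  have key : ∀ q ≤ m, ζ ^ q / (q.factorial : ℝ) ≤ ∑ T ∈ powersetCard q O, ∏ i ∈ T, c i := by
    intro q
    induction q with
    | zero => intro _; simp
    | succ q ih =>
      intro hq
      have h1 := ih (by omega)
      have h2 := exc_double O c q
      have h3 : ∑ T ∈ powersetCard q O, (∏ i ∈ T, c i) * ζ ≤
          ∑ T ∈ powersetCard q O, (∏ i ∈ T, c i) * ∑ i ∈ O \ T, c i := by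
        refine Finset.sum_le_sum fun T hT => ?_
        obtain ⟨hT1, hT2⟩ := Finset.mem_powersetCard.1 hT
        refine mul_le_mul_of_nonneg_left (hcon T hT1 (by omega)).le ?_
        exact Finset.prod_nonneg fun i hi => hc i (hT1 hi)
      rw [← Finset.sum_mul, ← h2] at h3
      have hq1 : (0 : ℝ) < (q : ℝ) + 1 := by positivity
      have hfac : (0 : ℝ) < (q.factorial : ℝ) := by exact_mod_cast Nat.factorial_pos q
      have h4 : ζ ^ (q + 1) / ((q + 1).factorial : ℝ) =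
          (ζ ^ q / (q.factorial : ℝ)) * ζ / ((q : ℝ) + 1) := by
        rw [Nat.factorial_succ]
        push_cast
        field_simp
        rw [pow_succ]
      rw [h4, div_le_iff₀ hq1]
      calc (ζ ^ q / (q.factorial : ℝ)) * ζ
          ≤ (∑ T ∈ powersetCard q O, ∏ i ∈ T, c i) * ζ :=
            mul_le_mul_of_nonneg_right h1 hζ.le
        _ ≤ ((q : ℝ) + 1) * ∑ T ∈ powersetCard (q + 1) O, ∏ i ∈ T, c i := h3
        _ = _ := mul_comm _ _
  exact absurd (key m le_rfl) (not_le.2 hlt)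

end Pool.Agent.H68.AT
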